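import Mathlib
import Pool.Agent.K1H76.HB.Stm

/-! Project HB, piece CA: the Laplacian of `tr (h₁⁻¹ h₂)`. -/

namespace Pool.Agent.K1H97.HB
open Matrix Complex Filter Topology Set
open Pool.Agent.K1H76.HB

/-- general first-order operator -/
noncomputable def dd (a b : ℂ) (f : ℂ → ℂ) (z : ℂ) : ℂ := a * fderiv ℝ f z 1 + b * fderiv ℝ f z I
/-- entrywise version -/
noncomputable def ddM (a b : ℂ) (F : ℂ → M2) (z : ℂ) : M2 :=
  Matrix.of fun i j => dd a b (fun w => F w i j) z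

lemma dz_eq (f : ℂ → ℂ) (z : ℂ) : dz f z = dd (1/2) (-I/2) f z := by simp only [dz, dd]; ring
lemma db_eq (f : ℂ → ℂ) (z : ℂ) : db f z = dd (1/2) (I/2) f z := by simp only [db, dd]; ring
lemma dzM_eq (F : ℂ → M2) (z : ℂ) : dzM F z = ddM (1/2) (-I/2) F z := by
  simp only [dzM, ddM, dz_eq]
lemma dbM_eq (F : ℂ → M2) (z : ℂ) : dbM F z = ddM (1/2) (I/2) F z := by
  simp only [dbM, ddM, db_eq]

lemma dd_mul (a b : ℂ) {f g : ℂ → ℂ} {z : ℂ} (hf : DifferentiableAt ℝ f z)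
    (hg : DifferentiableAt ℝ g z) :
    dd a b (fun w => f w * g w) z = dd a b f z * g z + f z * dd a b g z := by
  simp only [dd]
  rw [fderiv_fun_mul hf hg]
  simp only [_root_.add_apply, _root_.smul_apply, smul_eq_mul]
  ring

lemma dd_add (a b : ℂ) {f g : ℂ → ℂ} {z : ℂ} (hf : DifferentiableAt ℝ f z)
    (hg : DifferentiableAt ℝ g z) :
    dd a b (fun w => f w + g w) z = dd a b f z + dd a b g z := by
  simp only [dd]
  rw [fderiv_fun_add hf hg]
  simp only [_root_.add_apply]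
  ring

lemma dd_sub (a b : ℂ) {f g : ℂ → ℂ} {z : ℂ} (hf : DifferentiableAt ℝ f z)
    (hg : DifferentiableAt ℝ g z) :
    dd a b (fun w => f w - g w) z = dd a b f z - dd a b g z := by
  simp only [dd]
  rw [fderiv_fun_sub hf hg]
  simp only [_root_.sub_apply]
  ring

lemma dd_congr (a b : ℂ) {f g : ℂ → ℂ} {z : ℂ} (h : f =ᶠ[𝓝 z] g) : dd a b f z = dd a b g z := by
  simp only [dd]; rw [h.fderiv_eq]

/-- entries differentiable at `z` -/
def DM (F : ℂ → M2) (z : ℂ) : Prop := ∀ i j, DifferentiableAt ℝ (fun w => F w i j) z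

lemma DM.mul {F G : ℂ → M2} {z : ℂ} (hF : DM F z) (hG : DM G z) : DM (fun w => F w * G w) z := by
  intro i j
  simp only [Matrix.mul_apply, Fin.sum_univ_two]
  exact ((hF i 0).mul (hG 0 j)).add ((hF i 1).mul (hG 1 j))

lemma DM.sub {F G : ℂ → M2} {z : ℂ} (hF : DM F z) (hG : DM G z) : DM (fun w => F w - G w) z := by
  intro i j
  simp only [Matrix.sub_apply]
  exact (hF i j).sub (hG i j)

lemma ddM_mul (a b : ℂ) {F G : ℂ → M2} {z : ℂ} (hF : DM F z) (hG : DM G z) :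
    ddM a b (fun w => F w * G w) z = ddM a b F z * G z + F z * ddM a b G z := by
  ext i j
  simp only [ddM, Matrix.of_apply, Matrix.add_apply, Matrix.mul_apply, Fin.sum_univ_two]
  rw [dd_add a b (f := fun w => F w i 0 * G w 0 j) (g := fun w => F w i 1 * G w 1 j)
      ((hF i 0).mul (hG 0 j)) ((hF i 1).mul (hG 1 j)),
    dd_mul a b (hF i 0) (hG 0 j), dd_mul a b (hF i 1) (hG 1 j)]
  ring

lemma ddM_sub (a b : ℂ) {F G : ℂ → M2} {z : ℂ} (hF : DM F z) (hG : DM G z) :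
    ddM a b (fun w => F w - G w) z = ddM a b F z - ddM a b G z := by
  ext i j
  simp only [ddM, Matrix.of_apply, Matrix.sub_apply]
  rw [dd_sub a b (hF i j) (hG i j)]

lemma ddM_congr (a b : ℂ) {F G : ℂ → M2} {z : ℂ} (h : F =ᶠ[𝓝 z] G) : ddM a b F z = ddM a b G z := by
  ext i j
  simp only [ddM, Matrix.of_apply]
  exact dd_congr a b (h.mono fun w hw => by simp only [hw])

lemma dd_trace (a b : ℂ) {F : ℂ → M2} {z : ℂ} (hF : DM F z) :
    dd a b (fun w => (F w).trace) z = (ddM a b F z).trace := by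
  simp only [Matrix.trace_fin_two, ddM, Matrix.of_apply]
  exact dd_add a b (hF 0 0) (hF 1 1)

/-- second derivatives -/
lemma fd2 {f : ℂ → ℂ} {z : ℂ} (hf : ContDiffAt ℝ 2 f z) (u v : ℂ) :
    fderiv ℝ (fun w => fderiv ℝ f w v) z u = fderiv ℝ (fderiv ℝ f) z u v := by
  have h1 : DifferentiableAt ℝ (fderiv ℝ f) z :=
    ((hf.fderiv_right (m := 1) (by norm_num)).differentiableAt (by norm_num))
  rw [fderiv_clm_apply h1 (differentiableAt_const v)]
  simp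

lemma dfv {f : ℂ → ℂ} {z : ℂ} (hf : ContDiffAt ℝ 2 f z) (v : ℂ) :
    DifferentiableAt ℝ (fun w => fderiv ℝ f w v) z := by
  have h1 : DifferentiableAt ℝ (fderiv ℝ f) z :=
    ((hf.fderiv_right (m := 1) (by norm_num)).differentiableAt (by norm_num))
  exact h1.clm_apply (differentiableAt_const v)

lemma sym2 {f : ℂ → ℂ} {z : ℂ} (hf : ContDiffAt ℝ 2 f z) (u v : ℂ) :
    fderiv ℝ (fun w => fderiv ℝ f w v) z u = fderiv ℝ (fun w => fderiv ℝ f w u) z v := by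
  rw [fd2 hf, fd2 hf]
  exact (hf.isSymmSndFDerivAt (by simp [minSmoothness_of_isRCLikeNormedField])) u v

lemma fd_re {f : ℂ → ℂ} {z : ℂ} (hf : DifferentiableAt ℝ f z) (v : ℂ) :
    fderiv ℝ (fun w => (f w).re) z v = (fderiv ℝ f z v).re := by
  have h := (Complex.reCLM.hasFDerivAt (x := f z)).comp z hf.hasFDerivAt
  have h2 : HasFDerivAt (fun w => (f w).re) (Complex.reCLM.comp (fderiv ℝ f z)) z := h
  rw [h2.fderiv]; rfl

lemma lap_re {U : Set ℂ} (hU : IsOpen U) {f : ℂ → ℂ} (hf : ContDiffOn ℝ 2 f U) {z : ℂ} (hz : z ∈ U) :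
    lap (fun w => (f w).re) z = 4 * (db (fun w => dz f w) z).re := by
  have hat : ∀ w ∈ U, ContDiffAt ℝ 2 f w := fun w hw => hf.contDiffAt (hU.mem_nhds hw)
  have hd : ∀ w ∈ U, DifferentiableAt ℝ f w := fun w hw =>
    (hat w hw).differentiableAt (by norm_num)
  have key : ∀ v : ℂ, fderiv ℝ (fun w => fderiv ℝ (fun w => (f w).re) w v) z v
      = (fderiv ℝ (fun w => fderiv ℝ f w v) z v).re := by
    intro v
    have he : (fun w => fderiv ℝ (fun w => (f w).re) w v) =ᶠ[𝓝 z] fun w => (fderiv ℝ f w v).re :=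
      Filter.mem_of_superset (hU.mem_nhds hz) fun w hw => fd_re (hd w hw) v
    rw [he.fderiv_eq]
    exact fd_re (dfv (hat z hz) v) v
  have h1 := dfv (hat z hz) 1
  have h2 := dfv (hat z hz) I
  have hdz : ∀ v : ℂ, fderiv ℝ (fun w => dz f w) z v
      = (fderiv ℝ (fun w => fderiv ℝ f w 1) z v - I * fderiv ℝ (fun w => fderiv ℝ f w I) z v) / 2 := by
    intro v
    have h3 : HasFDerivAt (fun w => dz f w)
        ((2 : ℂ)⁻¹ • (fderiv ℝ (fun w => fderiv ℝ f w 1) z - I • fderiv ℝ (fun w => fderiv ℝ f w I) z)) z := by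
      have := (h1.hasFDerivAt.sub (h2.hasFDerivAt.const_mul I)).const_mul (2 : ℂ)⁻¹
      refine this.congr_of_eventuallyEq (Filter.Eventually.of_forall fun w => ?_)
      simp only [dz]
      ring_nf
      simp
      try ring
    rw [h3.fderiv]
    simp only [_root_.smul_apply, _root_.sub_apply, smul_eq_mul]
    ring
  simp only [lap]
  rw [key 1, key I]
  simp only [db]
  rw [hdz 1, hdz I, sym2 (hat z hz) 1 I]
  have hI : I * I = -1 := Complex.I_mul_I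
  have : 4 * (((fderiv ℝ (fun w ↦ fderiv ℝ f w 1) z 1 - I * fderiv ℝ (fun w ↦ fderiv ℝ f w 1) z I) / 2 +
      I * ((fderiv ℝ (fun w ↦ fderiv ℝ f w 1) z I - I * fderiv ℝ (fun w ↦ fderiv ℝ f w I) z I) / 2)) / 2)
      = fderiv ℝ (fun w ↦ fderiv ℝ f w 1) z 1 + fderiv ℝ (fun w ↦ fderiv ℝ f w I) z I := by
    linear_combination (-fderiv ℝ (fun w ↦ fderiv ℝ f w I) z I) * hI
  have h4 := congrArg Complex.re this
  rw [Complex.add_re] at h4
  rw [← h4]
  simp [Complex.mul_re]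

lemma inv_eq {h : M2} (hd : h.det = 1) : h⁻¹ = !![h 1 1, -h 0 1; -h 1 0, h 0 0] := by
  rw [Matrix.inv_def, hd, Ring.inverse_one, one_smul, Matrix.adjugate_fin_two]

lemma C2_inv {U : Set ℂ} {h : ℂ → M2} (hh : C2 U h) (hd : ∀ z ∈ U, (h z).det = 1) :
    C2 U (fun z => (h z)⁻¹) := by
  have h0 : C2 U (fun z => !![h z 1 1, -h z 0 1; -h z 1 0, h z 0 0]) := by
    intro i j
    fin_cases i <;> fin_cases j
    · exact hh 1 1
    · exact (hh 0 1).neg
    · exact (hh 1 0).neg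
    · exact hh 0 0
  intro i j
  exact (h0 i j).congr fun z hz => by simp only [inv_eq (hd z hz)]

lemma C2_mul {U : Set ℂ} {F G : ℂ → M2} (hF : C2 U F) (hG : C2 U G) : C2 U (fun z => F z * G z) := by
  intro i j
  simp only [Matrix.mul_apply, Fin.sum_univ_two]
  exact ((hF i 0).mul (hG 0 j)).add ((hF i 1).mul (hG 1 j))

lemma C2.DM' {U : Set ℂ} (hU : IsOpen U) {F : ℂ → M2} (hF : C2 U F) {z : ℂ} (hz : z ∈ U) : DM F z :=
  fun i j => ((hF i j).contDiffAt (hU.mem_nhds hz)).differentiableAt (by norm_num)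

lemma DM_dz {U : Set ℂ} (hU : IsOpen U) {F : ℂ → M2} (hF : C2 U F) {z : ℂ} (hz : z ∈ U) :
    DM (fun w => ddM (1/2) (-I/2) F w) z := by
  intro i j
  have hc := (hF i j).contDiffAt (hU.mem_nhds hz)
  simp only [ddM, Matrix.of_apply, dd]
  exact ((differentiableAt_const _).mul (dfv hc 1)).add ((differentiableAt_const _).mul (dfv hc I))

lemma DM_congr {F G : ℂ → M2} {z : ℂ} (hF : DM F z) (h : G =ᶠ[𝓝 z] F) : DM G z :=
  fun i j => (hF i j).congr_of_eventuallyEq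
    (Filter.mem_of_superset h fun w (hw : G w = F w) => by show G w i j = F w i j; rw [hw])

/-- `CA` -/
theorem t_CA : S_CA := by
  intro U h₁ h₂ hU c₁ c₂ d₁ d₂
  have i₁ := C2_inv c₁ d₁
  have i₂ := C2_inv c₂ d₂
  have cH : C2 U (fun w => (h₁ w)⁻¹ * h₂ w) := C2_mul i₁ c₂
  have ctr : ContDiffOn ℝ 2 (fun w => ((h₁ w)⁻¹ * h₂ w).trace) U := by
    simp only [Matrix.trace_fin_two]
    exact (cH 0 0).add (cH 1 1)
  refine ⟨Complex.reCLM.contDiff.comp_contDiffOn ctr, ?_⟩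
  intro z hz
  rw [lap_re hU ctr hz]
  -- the connection matrices
  have hconn : ∀ (h : ℂ → M2) (w : ℂ), conn h w = (h w)⁻¹ * ddM (1/2) (-I/2) h w := fun h w => by
    simp only [conn, dzM_eq]
  have DMc₁ : ∀ w ∈ U, DM (conn h₁) w := fun w hw =>
    DM_congr ((C2.DM' hU i₁ hw).mul (DM_dz hU c₁ hw)) (Filter.Eventually.of_forall (hconn h₁))
  have DMc₂ : ∀ w ∈ U, DM (conn h₂) w := fun w hw =>
    DM_congr ((C2.DM' hU i₂ hw).mul (DM_dz hU c₂ hw)) (Filter.Eventually.of_forall (hconn h₂))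
  -- derivative of the inverse
  have mulinv : ∀ h : M2, h.det = 1 → h⁻¹ * h = 1 := fun h hd =>
    Matrix.nonsing_inv_mul _ (by rw [hd]; exact isUnit_one)
  have mulinv' : ∀ h : M2, h.det = 1 → h * h⁻¹ = 1 := fun h hd =>
    Matrix.mul_nonsing_inv _ (by rw [hd]; exact isUnit_one)
  have dinv : ∀ w ∈ U, ddM (1/2) (-I/2) (fun w => (h₁ w)⁻¹) w = - (conn h₁ w * (h₁ w)⁻¹) := by
    intro w hw
    have e1 : ddM (1/2) (-I/2) (fun w => (h₁ w)⁻¹ * h₁ w) w = 0 := by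
      rw [ddM_congr (G := fun _ => (1 : M2)) _ _ (Filter.mem_of_superset (hU.mem_nhds hw)
        fun x hx => mulinv _ (d₁ x hx))]
      ext i j
      simp [ddM, dd]
    rw [ddM_mul _ _ (C2.DM' hU i₁ hw) (C2.DM' hU c₁ hw)] at e1
    have e2 := congrArg (fun M => M * (h₁ w)⁻¹) e1
    simp only [add_mul, zero_mul, mul_assoc, mulinv' _ (d₁ w hw), mul_one] at e2
    rw [hconn, eq_neg_iff_add_eq_zero, mul_assoc]
    exact e2
  -- first derivative of `H`
  have dH : ∀ w ∈ U, ddM (1/2) (-I/2) (fun w => (h₁ w)⁻¹ * h₂ w) w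
      = ((h₁ w)⁻¹ * h₂ w) * conn h₂ w - conn h₁ w * ((h₁ w)⁻¹ * h₂ w) := by
    intro w hw
    rw [ddM_mul _ _ (C2.DM' hU i₁ hw) (C2.DM' hU c₂ hw), dinv w hw, hconn h₂]
    have : (h₁ w)⁻¹ * h₂ w * ((h₂ w)⁻¹ * ddM (1/2) (-I/2) h₂ w) = (h₁ w)⁻¹ * ddM (1/2) (-I/2) h₂ w := by
      rw [mul_assoc, ← mul_assoc (h₂ w), mulinv' _ (d₂ w hw), one_mul]
    rw [this]
    simp only [neg_mul, mul_assoc]
    abel
  have hev : (fun w => dz (fun x => ((h₁ x)⁻¹ * h₂ x).trace) w) =ᶠ[𝓝 z] fun w =>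
      (((h₁ w)⁻¹ * h₂ w) * conn h₂ w - conn h₁ w * ((h₁ w)⁻¹ * h₂ w)).trace := by
    refine Filter.mem_of_superset (hU.mem_nhds hz) fun w hw => ?_
    show dz (fun x => ((h₁ x)⁻¹ * h₂ x).trace) w = _
    rw [dz_eq, dd_trace _ _ (C2.DM' hU cH hw), dH w hw]
  rw [db_eq, dd_congr _ _ hev]
  have DH := C2.DM' hU cH hz
  rw [dd_trace _ _ (F := fun w => ((h₁ w)⁻¹ * h₂ w) * conn h₂ w - conn h₁ w * ((h₁ w)⁻¹ * h₂ w))
    ((DH.mul (DMc₂ z hz)).sub ((DMc₁ z hz).mul DH)),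
    ddM_sub _ _ (DH.mul (DMc₂ z hz)) ((DMc₁ z hz).mul DH),
    ddM_mul _ _ DH (DMc₂ z hz), ddM_mul _ _ (DMc₁ z hz) DH, dbM_eq, dbM_eq, dbM_eq]
  congr 2
  set H := (h₁ z)⁻¹ * h₂ z
  set X := ddM (1/2) (I/2) (fun w => (h₁ w)⁻¹ * h₂ w) z
  simp only [mul_sub, Matrix.trace_sub, Matrix.trace_add]
  rw [Matrix.trace_mul_comm (conn h₁ z) X, Matrix.trace_mul_comm (ddM (1/2) (I/2) (conn h₁) z) H]
  ring

end Pool.Agent.K1H97.HB
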